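import Pool.Agent.H586.AF.C

set_option autoImplicit false

open MeasureTheory Matrix Finset Filter Topology
open Pool.Agent.H586.AF

namespace Pool.Agent.H138.AF

theorem sum_Ico_fin (L : ℕ) (f : ℕ → ℝ) :
    ∑ x ∈ Ico 1 L, f x = ∑ X : Fin (L - 1), f ((X : ℕ) + 1) := by
  rw [Finset.sum_Ico_eq_sum_range, Finset.sum_range]
  exact Finset.sum_congr rfl fun i _ => by rw [add_comm]

theorem sum_Icc_fin (L : ℕ) (f : ℕ → ℝ) :
    ∑ h ∈ Icc 1 L, f h = ∑ H : Fin L, f ((H : ℕ) + 1) := by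
  have h1 : Icc 1 L = Ico 1 (L + 1) := by
    ext x
    simp only [Finset.mem_Icc, Finset.mem_Ico]
    omega
  rw [h1, Finset.sum_Ico_eq_sum_range, Finset.sum_range]
  exact Finset.sum_congr rfl fun i _ => by rw [add_comm]

theorem ex2_eq (L : ℕ) (a : I2 L → ℂ) (X : Fin (L - 1)) (Y : Fin L) (z : ℕ) (H : Fin L) :
    ex2 L a 0 ((X : ℕ) + 1) Y z ((H : ℕ) + 1) =
      ∑ Z : Fin (L - 1), (if (Z : ℕ) + 1 = z then (1 : ℂ) else 0) * a (X, Y, Z, H) := by
  have hX := X.2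
  have hY := Y.2
  have hH := H.2
  by_cases hz : 1 ≤ z ∧ z - 1 < L - 1
  · have hc : (((X : ℕ) + 1 - 1 < L - 1 ∧ (Y : ℕ) < L ∧ z - 1 < L - 1 ∧ (H : ℕ) + 1 - 1 < L) ∧
        1 ≤ (X : ℕ) + 1 ∧ 1 ≤ z ∧ 1 ≤ (H : ℕ) + 1) := by
      refine ⟨⟨by omega, by omega, hz.2, by omega⟩, by omega, hz.1, by omega⟩
    rw [ex2, dif_pos hc, Finset.sum_eq_single (⟨z - 1, hz.2⟩ : Fin (L - 1))]
    · rw [if_pos (by show z - 1 + 1 = z; omega), one_mul]
      rfl
    · intro Z _ hne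
      rw [if_neg, zero_mul]
      intro h
      apply hne
      apply Fin.ext
      show (Z : ℕ) = z - 1
      omega
    · intro h
      exact absurd (Finset.mem_univ _) h
  · rw [ex2, dif_neg (by intro hc; exact hz ⟨hc.2.2.1, hc.1.2.2.1⟩)]
    symm
    apply Finset.sum_eq_zero
    intro Z _
    rw [if_neg, zero_mul]
    intro h
    have := Z.2
    apply hz
    constructor <;> omega

theorem ex3_eq (L : ℕ) (b : I3 L → ℂ) (X : Fin (L - 1)) (y : ℕ) (Z : Fin L) (H : Fin L) :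
    ex3 L b 0 ((X : ℕ) + 1) y Z ((H : ℕ) + 1) =
      ∑ Y : Fin (L - 1), (if (Y : ℕ) + 1 = y then (1 : ℂ) else 0) * b (X, Y, Z, H) := by
  have hX := X.2
  have hZ := Z.2
  have hH := H.2
  by_cases hy : 1 ≤ y ∧ y - 1 < L - 1
  · have hc : (((X : ℕ) + 1 - 1 < L - 1 ∧ y - 1 < L - 1 ∧ (Z : ℕ) < L ∧ (H : ℕ) + 1 - 1 < L) ∧
        1 ≤ (X : ℕ) + 1 ∧ 1 ≤ y ∧ 1 ≤ (H : ℕ) + 1) := by
      refine ⟨⟨by omega, hy.2, by omega, by omega⟩, by omega, hy.1, by omega⟩
    rw [ex3, dif_pos hc, Finset.sum_eq_single (⟨y - 1, hy.2⟩ : Fin (L - 1))]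
    · rw [if_pos (by show y - 1 + 1 = y; omega), one_mul]
      rfl
    · intro Y _ hne
      rw [if_neg, zero_mul]
      intro h
      apply hne
      apply Fin.ext
      show (Y : ℕ) = y - 1
      omega
    · intro h
      exact absurd (Finset.mem_univ _) h
  · rw [ex3, dif_neg (by intro hc; exact hy ⟨hc.2.2.1, hc.1.2.1⟩)]
    symm
    apply Finset.sum_eq_zero
    intro Y _
    rw [if_neg, zero_mul]
    intro h
    have := Y.2
    apply hy
    constructor <;> omega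

theorem ee_def (θ x : ℝ) : ee θ x = Complex.exp (Complex.I * (θ * x : ℝ)) := rfl

theorem g2_apply (L : ℕ) (θ : ℝ) (X : Fin (L - 1)) (Y : Fin L) (Z : Fin (L - 1)) (H : Fin L)
    (p q r : Fin (L - 1)) (s : Fin L) :
    g2 L θ (X, Y, Z, H) (p, q, r, s) =
      (if X = p then 1 else 0) * ((ee θ ((((X : ℕ) : ℝ) + 1) / 2) * (if (q : ℕ) = Y then 1 else 0) -
          ee θ (-((((X : ℕ) : ℝ) + 1) / 2)) * (if (q : ℕ) + 1 = Y then 1 else 0)) *
        (if Z = r then 1 else 0) * (if H = s then 1 else 0)) := by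
  have h1 : Complex.exp (Complex.I * (θ * (1 / 2) * (((X : ℕ) : ℝ) + 1) : ℝ)) =
      ee θ ((((X : ℕ) : ℝ) + 1) / 2) := by
    rw [ee_def]
    congr 3
    ring
  have h2 : Complex.exp (Complex.I * (θ * (-(1 / 2)) * (((X : ℕ) : ℝ) + 1) : ℝ)) =
      ee θ (-((((X : ℕ) : ℝ) + 1) / 2)) := by
    rw [ee_def]
    congr 3
    ring
  rw [g2, Matrix.sub_apply, k4, k4, phs, phs, Matrix.diagonal_apply, Matrix.diagonal_apply]
  show (if X = p then Complex.exp (Complex.I * (θ * (1 / 2) * (((X : ℕ) : ℝ) + 1) : ℝ)) else 0) *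
      (if (q : ℕ) = Y then 1 else 0) * (1 : Matrix (Fin (L - 1)) (Fin (L - 1)) ℂ) Z r *
      (1 : Matrix (Fin L) (Fin L) ℂ) H s -
    (if X = p then Complex.exp (Complex.I * (θ * (-(1 / 2)) * (((X : ℕ) : ℝ) + 1) : ℝ)) else 0) *
      (if (q : ℕ) + 1 = Y then 1 else 0) * (1 : Matrix (Fin (L - 1)) (Fin (L - 1)) ℂ) Z r *
      (1 : Matrix (Fin L) (Fin L) ℂ) H s = _
  rw [h1, h2, Matrix.one_apply, Matrix.one_apply]
  by_cases hX : X = p
  · rw [if_pos hX, if_pos hX, if_pos hX]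
    ring
  · rw [if_neg hX, if_neg hX, if_neg hX]
    ring

theorem g3_apply (L : ℕ) (X Y : Fin (L - 1)) (Z : Fin L) (H : Fin L)
    (p q r : Fin (L - 1)) (s : Fin L) :
    star (g3 L (X, Y, Z, H) (p, q, r, s)) =
      (if p = X then 1 else 0) * ((if q = Y then 1 else 0) *
        (((if (r : ℕ) = Z then 1 else 0) - (if (r : ℕ) + 1 = Z then 1 else 0)) *
          (if s = H then 1 else 0))) := by
  have h1 : ∀ {n : ℕ} (u v : Fin n), (1 : Matrix (Fin n) (Fin n) ℂ) u v = if v = u then 1 else 0 := by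
    intro n u v
    rw [Matrix.one_apply]
    by_cases h : u = v
    · rw [if_pos h, if_pos h.symm]
    · rw [if_neg h, if_neg (Ne.symm h)]
  rw [g3, k4]
  show star ((1 : Matrix (Fin (L - 1)) (Fin (L - 1)) ℂ) X p * (1 : Matrix (Fin (L - 1)) (Fin (L - 1)) ℂ) Y q *
    (((dm L (L - 1) Z r : ℝ) : ℂ)) * (1 : Matrix (Fin L) (Fin L) ℂ) H s) = _
  rw [h1, h1, h1, dm]
  split_ifs <;> simp

theorem entry (L : ℕ) (θ : ℝ) (X : Fin (L - 1)) (Y : Fin L) (Z : Fin (L - 1)) (H : Fin L)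
    (X' : Fin (L - 1)) (Y' : Fin (L - 1)) (Z' : Fin L) (H' : Fin L) :
    (-(g2 L θ * (g3 L)ᴴ)) (X, Y, Z, H) (X', Y', Z', H') =
      (if X = X' then 1 else 0) * ((if H = H' then 1 else 0) *
        ((ee θ ((((X : ℕ) : ℝ) + 1) / 2) * (if (Y' : ℕ) = Y then 1 else 0) -
          ee θ (-((((X : ℕ) : ℝ) + 1) / 2)) * (if (Y' : ℕ) + 1 = Y then 1 else 0)) *
          ((if (Z : ℕ) + 1 = Z' then 1 else 0) - (if (Z : ℕ) = Z' then 1 else 0)))) := by
  rw [Matrix.neg_apply, Matrix.mul_apply, Fintype.sum_prod_type]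
  simp only [Fintype.sum_prod_type, Matrix.conjTranspose_apply, g2_apply, g3_apply]
  rw [Finset.sum_eq_single X', Finset.sum_eq_single Y', Finset.sum_eq_single Z,
    Finset.sum_eq_single H']
  · rw [if_pos rfl, if_pos rfl, if_pos rfl, if_pos rfl]
    ring
  · intro s _ hs
    rw [if_neg hs]
    ring
  · intro h
    exact absurd (Finset.mem_univ _) h
  · intro r _ hr
    apply Finset.sum_eq_zero
    intro s _
    rw [if_neg (Ne.symm hr)]
    ring
  · intro h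
    exact absurd (Finset.mem_univ _) h
  · intro q _ hq
    apply Finset.sum_eq_zero
    intro r _
    apply Finset.sum_eq_zero
    intro s _
    rw [if_neg hq]
    ring
  · intro h
    exact absurd (Finset.mem_univ _) h
  · intro p _ hp
    apply Finset.sum_eq_zero
    intro q _
    apply Finset.sum_eq_zero
    intro r _
    apply Finset.sum_eq_zero
    intro s _
    rw [if_neg hp]
    ring
  · intro h
    exact absurd (Finset.mem_univ _) h

theorem hf_eq (L : ℕ) (θ : ℝ) (a : I2 L → ℂ) (b : I3 L → ℂ) :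
    hf a (-(g2 L θ * (g3 L)ᴴ)) b =
      (∑ X : Fin (L - 1), ∑ Y : Fin L, ∑ Z : Fin (L - 1), ∑ H : Fin L,
        ∑ Y' : Fin (L - 1), ∑ Z' : Fin L, star (a (X, Y, Z, H)) *
          ((ee θ ((((X : ℕ) : ℝ) + 1) / 2) * (if (Y' : ℕ) = Y then 1 else 0) -
          ee θ (-((((X : ℕ) : ℝ) + 1) / 2)) * (if (Y' : ℕ) + 1 = Y then 1 else 0)) *
          ((if (Z : ℕ) + 1 = Z' then 1 else 0) - (if (Z : ℕ) = Z' then 1 else 0))) *
          b (X, Y', Z', H)).re := by
  rw [hf]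
  congr 1
  simp only [Fintype.sum_prod_type, entry]
  refine Finset.sum_congr rfl fun X _ => Finset.sum_congr rfl fun Y _ =>
    Finset.sum_congr rfl fun Z _ => Finset.sum_congr rfl fun H _ => ?_
  rw [Finset.sum_eq_single X]
  · refine Finset.sum_congr rfl fun Y' _ => Finset.sum_congr rfl fun Z' _ => ?_
    rw [Finset.sum_eq_single H]
    · rw [if_pos rfl, if_pos rfl]
      ring
    · intro H' _ hH
      rw [if_neg (Ne.symm hH)]
      ring
    · intro h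
      exact absurd (Finset.mem_univ _) h
  · intro X' _ hX
    apply Finset.sum_eq_zero
    intro q _
    apply Finset.sum_eq_zero
    intro r _
    apply Finset.sum_eq_zero
    intro s _
    rw [if_neg (Ne.symm hX)]
    ring
  · intro h
    exact absurd (Finset.mem_univ _) h

theorem sum_swap4 {a b c d : Type*} [Fintype a] [Fintype b] [Fintype c] [Fintype d]
    (F : a → b → c → d → ℂ) :
    ∑ u : a, ∑ v : b, ∑ w : c, ∑ x : d, F u v w x = ∑ x : d, ∑ v : b, ∑ u : a, ∑ w : c, F u v w x := by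
  rw [Finset.sum_comm]
  conv_rhs => rw [Finset.sum_comm]
  refine Finset.sum_congr rfl fun v _ => ?_
  rw [Finset.sum_comm (γ := d)]
  refine Finset.sum_congr rfl fun u _ => ?_
  rw [Finset.sum_comm]

theorem tq23 : S_Q23 := by
  intro L hL θ a b
  rw [hf_eq, s23]
  simp only [sum_Ico_fin, sum_Icc_fin, Finset.sum_range]
  simp only [Complex.re_sum]
  refine Finset.sum_congr rfl fun X _ => Finset.sum_congr rfl fun Y _ => ?_
  -- the terms
  have key : ∀ (Z' H : Fin L),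
      (ex2 L a 0 ((X : ℕ) + 1) Y Z' ((H : ℕ) + 1) - ex2 L a 0 ((X : ℕ) + 1) Y ((Z' : ℕ) + 1) ((H : ℕ) + 1)) *
        star (ee θ ((((X : ℕ) + 1 : ℕ) : ℝ) / 2) * ex3 L b 0 ((X : ℕ) + 1) ((Y : ℕ) + 1) Z' ((H : ℕ) + 1) -
          ee θ (-((((X : ℕ) + 1 : ℕ) : ℝ) / 2)) * ex3 L b 0 ((X : ℕ) + 1) Y Z' ((H : ℕ) + 1)) =
      star (∑ Z : Fin (L - 1), ∑ Y' : Fin (L - 1), star (a (X, Y, Z, H)) *
          ((ee θ ((((X : ℕ) : ℝ) + 1) / 2) * (if (Y' : ℕ) = Y then 1 else 0) -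
          ee θ (-((((X : ℕ) : ℝ) + 1) / 2)) * (if (Y' : ℕ) + 1 = Y then 1 else 0)) *
          ((if (Z : ℕ) + 1 = Z' then 1 else 0) - (if (Z : ℕ) = Z' then 1 else 0))) *
          b (X, Y', Z', H)) := by
    intro Z' H
    rw [ex2_eq, ex2_eq, ex3_eq, ex3_eq]
    have e1 : (((X : ℕ) + 1 : ℕ) : ℝ) = ((X : ℕ) : ℝ) + 1 := by push_cast; rfl
    rw [e1]
    have e2 : (∑ Z : Fin (L - 1), (if (Z : ℕ) + 1 = (Z' : ℕ) then (1 : ℂ) else 0) * a (X, Y, Z, H)) -
        ∑ Z : Fin (L - 1), (if (Z : ℕ) + 1 = (Z' : ℕ) + 1 then (1 : ℂ) else 0) * a (X, Y, Z, H) =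
        star (∑ Z : Fin (L - 1), star (a (X, Y, Z, H)) *
          ((if (Z : ℕ) + 1 = Z' then 1 else 0) - (if (Z : ℕ) = Z' then 1 else 0))) := by
      rw [← Finset.sum_sub_distrib, star_sum]
      refine Finset.sum_congr rfl fun Z _ => ?_
      rw [star_mul, star_star, star_sub]
      simp only [Nat.add_right_cancel_iff]
      split_ifs <;> simp
    have e3 : ee θ ((((X : ℕ) : ℝ) + 1) / 2) * (∑ Y' : Fin (L - 1),
          (if (Y' : ℕ) + 1 = (Y : ℕ) + 1 then (1 : ℂ) else 0) * b (X, Y', Z', H)) -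
        ee θ (-((((X : ℕ) : ℝ) + 1) / 2)) * (∑ Y' : Fin (L - 1),
          (if (Y' : ℕ) + 1 = (Y : ℕ) then (1 : ℂ) else 0) * b (X, Y', Z', H)) =
        ∑ Y' : Fin (L - 1), (ee θ ((((X : ℕ) : ℝ) + 1) / 2) * (if (Y' : ℕ) = Y then 1 else 0) -
          ee θ (-((((X : ℕ) : ℝ) + 1) / 2)) * (if (Y' : ℕ) + 1 = Y then 1 else 0)) *
          b (X, Y', Z', H) := by
      rw [Finset.mul_sum, Finset.mul_sum, ← Finset.sum_sub_distrib]
      refine Finset.sum_congr rfl fun Y' _ => ?_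
      simp only [Nat.add_right_cancel_iff]
      ring
    rw [e2, e3, ← star_mul']
    congr 1
    rw [Finset.sum_mul_sum]
    refine Finset.sum_congr rfl fun Z _ => Finset.sum_congr rfl fun Y' _ => ?_
    ring
  simp only [key]
  have hre : ∀ z : ℂ, (star z).re = z.re := fun z => rfl
  simp only [hre]
  simp only [← Complex.re_sum]
  congr 1
  exact (sum_swap4 _).symm

end Pool.Agent.H138.AF
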